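import Pool.Agent.Y223.G.WModP
import Pool.Agent.Y223.G.AllP

/-!
MP_602153_ag: regular projective flat models, in every dimension, of products of elliptic curves
over number fields, with wild ramification.

The elliptic curves `W ω` over the number field `E` have good reduction everywhere over the Galois
extension `M` of `E`. The field `F` is the function field of their product over `E`, with the
generic points `(X ω, Y ω)` of the factors, and `K` is the function field of their product over
`M`, with the action `ρ` of the Galois group. The curves have bad reduction, in general, at the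
primes at which `M` is ramified over `E`, and the ramification may be wild.
-/

set_option autoImplicit false

open AlgebraicGeometry CategoryTheory CategoryTheory.Limits MvPolynomial

open scoped NumberField

namespace Pool.Agent.Results.MP_602153_ag.EllipticCurveProducts

/-- The inertia group of the ideal `𝔓` of the ring of integers of `M`: the automorphisms of `M` over
`E` which act trivially modulo `𝔓`. -/
def inertiaGroup (E : Type) {M : Type} [Field E] [Field M] [Algebra E M] (𝔓 : Ideal (𝓞 M)) :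
    Set (M ≃ₐ[E] M) :=
  {g | ∀ o : 𝓞 M, ∃ e ∈ 𝔓, (e : M) = g o - o}

/-- The order of the inertia group of the maximal ideal `𝔓` (the ramification index of `𝔓` over `E`)
is divisible by `r ^ i`, where `r` is the residue characteristic. -/
def ResCharPowDvd (E : Type) {M : Type} [Field E] [Field M] [Algebra E M] (𝔓 : Ideal (𝓞 M))
    (i : ℕ) : Prop :=
  ∃ r : ℕ, r.Prime ∧ (r : 𝓞 M) ∈ 𝔓 ∧ r ^ i ∣ Nat.card (inertiaGroup E 𝔓)

/-- At the primes `𝔓` over `2`, if an automorphism `g ≠ 1` of `M` over `E` is the identity modulo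
`𝔓 ^ (l + 1)`, then the valuation of `a₁` is at least `2 l / 3`. This is no condition at the primes
which are tamely ramified over `E`; at the others it says that the reduction is supersingular and
that `a₁` is divisible by a sufficiently high power of `𝔓`, for instance by `2`. -/
def IsSupersingularAtWildPrimes (E : Type) {M : Type} [Field E] [Field M] [Algebra E M]
    (V : WeierstrassCurve (𝓞 M)) : Prop :=
  ∀ 𝔓 : Ideal (𝓞 M), 𝔓.IsMaximal → (2 : 𝓞 M) ∈ 𝔓 → ∀ g : M ≃ₐ[E] M, g ≠ 1 → ∀ l : ℕ, 1 ≤ l →
    (∀ o : 𝓞 M, ∃ e ∈ 𝔓 ^ (l + 1), (e : M) = g o - o) → V.a₁ ^ 3 ∈ 𝔓 ^ (2 * l)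

/-- After a change of variables over `M`, the Weierstrass equation `W` over `E` has coefficients in
the ring of integers of `M` and its discriminant is a unit: the elliptic curve has good reduction
everywhere over `M`. The reduction is supersingular at the wildly ramified primes over `2`. -/
def HasGoodReduction {E : Type} (M : Type) [Field E] [Field M] [Algebra E M]
    (W : WeierstrassCurve E) : Prop :=
  ∃ (V : WeierstrassCurve (𝓞 M)) (C : WeierstrassCurve.VariableChange M),
    IsUnit V.Δ ∧ V.map (algebraMap (𝓞 M) M) = C • W.map (algebraMap E M) ∧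
      IsSupersingularAtWildPrimes E V

/-- `(X, Y)` is a generic point of the curve `W`. -/
def IsGenericPoint {E F : Type} [Field E] [Field F] [Algebra E F] (W : WeierstrassCurve E)
    (X Y : F) : Prop :=
  Transcendental E X ∧ Y ^ 2 + algebraMap E F W.a₁ * X * Y + algebraMap E F W.a₃ * Y =
    X ^ 3 + algebraMap E F W.a₂ * X ^ 2 + algebraMap E F W.a₄ * X + algebraMap E F W.a₆

/-- The homogeneous coordinates `X ω`, `Y ω`, `1` of the points `(X ω, Y ω)`. -/
def coordinates (K : Type) {F Ω : Type} [Field F] [Field K] [Algebra F K] (X Y : Ω → F) (ω : Ω) :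
    Fin (2 + 1) → K :=
  ![algebraMap F K (X ω), algebraMap F K (Y ω), 1]

/-- The field over `M` generated by the function fields of the curves with the homogeneous
coordinates `z ω`, `ω` in `S`. -/
noncomputable def productField (M : Type) {K Ω : Type} [Field M] [Field K] [Algebra M K] {m : ℕ}
    (z : Ω → Fin (m + 1) → K) (S : Set Ω) : IntermediateField M K :=
  IntermediateField.adjoin M {y | ∃ ω ∈ S, ∃ j, y = z ω j / z ω 0}

/-- `K` is the function field of the product over `M` of the curves with the homogeneous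
coordinates `z ω`. -/
def IsProduct (M : Type) {K Ω : Type} [Field M] [Field K] [Algebra M K] {m : ℕ}
    (z : Ω → Fin (m + 1) → K) : Prop :=
  productField M z Set.univ = ⊤ ∧ ∀ (S : Set Ω) (ω : Ω), ω ∉ S →
    (productField M z S).toSubalgebra.LinearDisjoint (productField M z {ω}).toSubalgebra

/-- `x` are homogeneous coordinates in the field `F` of the variety with the homogeneous coordinate
ring `B` over `E`: a form vanishes in `B` if and only if it vanishes at `x`. -/
def IsCoordinates {E F B : Type} [Field E] [Field F] [Algebra E F] [CommRing B] [Algebra E B]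
    {n : ℕ} (π : MvPolynomial (Fin (n + 1)) E →ₐ[E] B) (x : Fin (n + 1) → F) : Prop :=
  ∀ d, ∀ P : MvPolynomial (Fin (n + 1)) E, P.IsHomogeneous d → (π P = 0 ↔ aeval x P = 0)

/-- The `M`-linear combinations of the coordinates `x` are those of the products of the
coordinates `z ω`: the variety with the coordinates `x` is the product of the curves with the
coordinates `z ω`, with the Segre embedding. -/
def IsSegre (M : Type) {F K Ω : Type} [Field M] [Field F] [Field K] [Algebra M K] [Algebra F K]
    [Fintype Ω] {n m : ℕ} (x : Fin (n + 1) → F) (z : Ω → Fin (m + 1) → K) : Prop :=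
  Submodule.span M (Set.range fun i => algebraMap F K (x i)) =
    Submodule.span M (Set.range fun J : Ω → Fin (m + 1) => ∏ ω, z ω (J ω))

/-- The dimensions of the local rings of `A` equal the dimensions of their cotangent spaces. -/
def HasRegularLocalRings (A : Type) [CommRing A] : Prop :=
  ∀ p : PrimeSpectrum A, ringKrullDim (Localization.AtPrime p.asIdeal) =
    (((Module.finrank (IsLocalRing.ResidueField (Localization.AtPrime p.asIdeal))
      (IsLocalRing.CotangentSpace (Localization.AtPrime p.asIdeal)) : ℕ) : ℕ∞) : WithBot ℕ∞)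

/-- The local rings of the locally Noetherian scheme `Y` are regular. -/
def IsRegularScheme (Y : Scheme.{0}) : Prop :=
  IsLocallyNoetherian Y ∧
  ∀ U : Y.affineOpens, HasRegularLocalRings (Y.presheaf.obj (Opposite.op U.1))

/-- `Y` is projective over the integers. -/
def IsProjectiveOverInt (Y : Scheme.{0}) : Prop :=
  ∃ (A : Type) (_ : CommRing A) (𝒜 : ℕ → Submodule ℤ A) (_ : GradedAlgebra 𝒜),
    (∀ a ∈ 𝒜 0, ∃ n : ℤ, (n : A) = a) ∧
    (∃ s : Finset A, (∀ a ∈ s, a ∈ 𝒜 1) ∧ Algebra.adjoin ℤ (s : Set A) = ⊤) ∧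
    Nonempty (Y ≅ Proj 𝒜)

/-- The generic fibre of `Y` is isomorphic to `V`. -/
def HasGenericFibre (Y V : Scheme.{0}) : Prop :=
  Nonempty (pullback (specZIsTerminal.from Y)
      (specZIsTerminal.from (Spec (CommRingCat.of ℚ))) ≅ V)

/-- `Y` is an integral regular locally Noetherian scheme, projective and flat over the integers,
with generic fibre `V`. -/
def IsRegularProjectiveFlatModel (V Y : Scheme.{0}) : Prop :=
  IsIntegral Y ∧ IsRegularScheme Y ∧ IsProjectiveOverInt Y ∧ Flat (specZIsTerminal.from Y) ∧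
    HasGenericFibre Y V

theorem result :
    ∀ (E M : Type) [Field E] [NumberField E] [Field M] [NumberField M] [Algebra E M]
      [IsGalois E M],
      -- the wild inertia groups have order at most the residue characteristic
      (∀ 𝔓 : Ideal (𝓞 M), 𝔓.IsMaximal → ¬ ResCharPowDvd E 𝔓 2) →
      -- the elliptic curves
      ∀ (Ω : Type) [Fintype Ω] [Nonempty Ω] (W : Ω → WeierstrassCurve E),
      (∀ ω, HasGoodReduction M (W ω)) →
      -- the function fields of the product over `E` and over `M`
      ∀ (F K : Type) [Field F] [Field K] [Algebra E F] [Algebra M K] [Algebra E K]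
      [IsScalarTower E M K] [Algebra F K] [IsScalarTower E F K]
      (ρ : (M ≃ₐ[E] M) →* (K ≃ₐ[E] K)), (∀ g c, ρ g (algebraMap M K c) = algebraMap M K (g c)) →
      (∀ y, (∀ g, ρ g y = y) ↔ ∃ f : F, algebraMap F K f = y) →
      ∀ X Y : Ω → F, (∀ ω, IsGenericPoint (W ω) (X ω) (Y ω)) → IsProduct M (coordinates K X Y) →
      -- the product, with the Segre embedding
      ∀ (n : ℕ) (B : Type) [CommRing B] [Algebra E B] (π : MvPolynomial (Fin (n + 1)) E →ₐ[E] B),
      Function.Surjective π →
      ∀ (ℬ : ℕ → Submodule E B) [GradedAlgebra ℬ],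
      (∀ d, ℬ d = (homogeneousSubmodule (Fin (n + 1)) E d).map π.toLinearMap) →
      ∀ (x : Fin (n + 1) → F), IsCoordinates π x → IsSegre M x (coordinates K X Y) →
      -- every scheme isomorphic to `Proj ℬ` has a regular projective flat model over the integers
      ∀ (V : Scheme.{0}), Nonempty (V ≅ Proj ℬ) → ∃ Y, IsRegularProjectiveFlatModel V Y := by
  intro E M _ _ _ _ _ _ hin Ω _ _ W hW F K _ _ _ _ _ _ _ _ ρ hρ hfix X Y hP ⟨hgen, hld⟩ n B
    _ _ π hπ ℬ _ hℬ x hx hseg V hV
  have hcard : ∀ 𝔓 : Ideal (𝓞 M), Nat.card (Pool.Agent.Y223.G.inert E 𝔓) =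
      Nat.card (inertiaGroup E 𝔓) := by
    intro 𝔓
    have h1 : ((Pool.Agent.Y223.G.inert E 𝔓 : Subgroup (M ≃ₐ[E] M)) : Set (M ≃ₐ[E] M)) =
        inertiaGroup E 𝔓 := by
      ext g
      constructor
      · intro hg o
        exact ⟨_, hg o, rfl⟩
      · intro hg o
        obtain ⟨e, he, h⟩ := hg o
        have h2 : e = Pool.Agent.Y223.G.TT E M g o - o := by
          apply NumberField.RingOfIntegers.coe_injective
          exact h
        rw [← h2]
        exact he
    exact congrArg (fun S : Set (M ≃ₐ[E] M) => Nat.card S) h1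
  have hW' : ∀ ω, ∃ (V : WeierstrassCurve (𝓞 M)) (C : WeierstrassCurve.VariableChange M),
      IsUnit V.Δ ∧ V.map (algebraMap (𝓞 M) M) = C • (W ω).map (algebraMap E M) ∧
      ∀ 𝔮 : Ideal (𝓞 M), 𝔮.IsPrime → (2 : 𝓞 M) ∈ 𝔮 → ∀ g : M ≃ₐ[E] M, g ≠ 1 → ∀ l, 1 ≤ l →
        (∀ x, Pool.Agent.Y223.G.TT E M g x - x ∈ 𝔮 ^ (l + 1)) → V.a₁ ^ 3 ∈ 𝔮 ^ (2 * l) := by
    intro ω
    obtain ⟨V, C, h1, h2, h3⟩ := hW ω
    refine ⟨V, C, h1, h2, fun 𝔮 h𝔮 h2𝔮 g hg l hl hgl => ?_⟩
    have h0 : 𝔮 ≠ ⊥ := by
      rintro rfl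
      rw [Ideal.mem_bot] at h2𝔮
      exact two_ne_zero h2𝔮
    exact h3 𝔮 (h𝔮.isMaximal h0) h2𝔮 g hg l hl (fun o => ⟨_, hgl o, rfl⟩)
  have hD : Pool.Agent.Y223.G.EllD3 E M F K Ω ρ (fun ω => algebraMap F K (X ω))
      (fun ω => algebraMap F K (Y ω)) :=
    Pool.Agent.Y223.G.ellD3_of Pool.Agent.Y223.G.all_TAMC Pool.Agent.Y223.G.all_SMRG
      Pool.Agent.Y223.G.all_LDG Pool.Agent.Y223.G.all_ECSM Pool.Agent.Y223.G.all_ECINT ρ hρ hfix
      (fun 𝔓 h𝔓 p hp hp𝔓 hd => hin 𝔓 h𝔓 ⟨p, hp, hp𝔓, by rwa [← hcard]⟩)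
      W hW' X Y (fun ω => ⟨(hP ω).1, (hP ω).2⟩) hgen hld
  obtain ⟨Y, h1, h2, h3, h4, h5, h6⟩ := Pool.Agent.Y223.G.ell_model3_Z Pool.Agent.Y223.G.all_LINW
    Pool.Agent.Y223.G.all_ECCH3 hD x hseg π hπ ℬ hℬ (fun d P hP => hx d P hP) V hV
  exact ⟨Y, h1, ⟨h2, h3⟩, h4, h5, h6⟩

end Pool.Agent.Results.MP_602153_ag.EllipticCurveProducts
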