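import Pool.Agent.Y223.G.WModE
import Pool.Agent.Y223.G.RgSm
import Pool.Agent.Y223.G.AllE

/-!
MP_602153_ag: regular projective flat models, in every dimension, of Weil restrictions along
finite étale algebras over number fields, with wild ramification.

The Galois extension `M` of the number field `E` splits a finite étale algebra over `E`, which
corresponds to the finite set `Ω` with an action of the Galois group. The variety over this algebra
is given by its conjugates over `M`, which are permuted by the Galois group: `z ω` are homogeneous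
coordinates of the conjugate `ω`, in the function field `K` of the product of the conjugates. The
Weil restriction `V` is the variety over `E`, with the function field `F`, the field of
invariants of `K`, and homogeneous coordinates `x` in `F`, which over `M` becomes the
product of the conjugates with the Segre embedding.
-/

set_option autoImplicit false

open AlgebraicGeometry CategoryTheory CategoryTheory.Limits MvPolynomial

open scoped NumberField

namespace Pool.Agent.Results.MP_602153_ag.EtaleWeilRestrictions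

/-- The inertia group of the ideal `𝔓` of the ring of integers of `M`: the automorphisms of `M` over
`E` which act trivially modulo `𝔓`. -/
def inertiaGroup (E : Type) {M : Type} [Field E] [Field M] [Algebra E M] (𝔓 : Ideal (𝓞 M)) :
    Set (M ≃ₐ[E] M) :=
  {g | ∀ o : 𝓞 M, ∃ e ∈ 𝔓, (e : M) = g o - o}

/-- The order of the inertia group of the maximal ideal `𝔓` (the ramification index of `𝔓` over `E`)
is divisible by `r ^ i`, where `r` is the residue characteristic. -/
def ResCharPowDvd (E : Type) {M : Type} [Field E] [Field M] [Algebra E M] (𝔓 : Ideal (𝓞 M))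
    (i : ℕ) : Prop :=
  ∃ r : ℕ, r.Prime ∧ (r : 𝓞 M) ∈ 𝔓 ∧ r ^ i ∣ Nat.card (inertiaGroup E 𝔓)

/-- The ring `O[z 0 / z j, ..., z m / z j]` of the chart `z j ≠ 0` of the model over `O` of the
variety with the homogeneous coordinates `z`. -/
def chartRing (O : Type) {K : Type} [CommRing O] [Field K] [Algebra O K] {m : ℕ}
    (z : Fin (m + 1) → K) (j : Fin (m + 1)) : Subalgebra O K :=
  Algebra.adjoin O (Set.range fun l => z l / z j)

/-- The algebra generated by the rings of the charts `z ω (J ω) ≠ 0`: a chart of the product over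
`O` of the models. -/
def productRing (O : Type) {K Ω : Type} [CommRing O] [Field K] [Algebra O K] {m : ℕ}
    (z : Ω → Fin (m + 1) → K) (J : Ω → Fin (m + 1)) : Subalgebra O K :=
  Algebra.adjoin O {y | ∃ (ω : Ω) (l : Fin (m + 1)), y = z ω l / z ω (J ω)}

/-- The field over `M` generated by the function fields of the varieties with the homogeneous
coordinates `z ω`, `ω` in `S`. -/
noncomputable def productField (M : Type) {K Ω : Type} [Field M] [Field K] [Algebra M K] {m : ℕ}
    (z : Ω → Fin (m + 1) → K) (S : Set Ω) : IntermediateField M K :=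
  IntermediateField.adjoin M {y | ∃ ω ∈ S, ∃ j, y = z ω j / z ω 0}

/-- `K` is the function field of the product over `M` of the varieties with the homogeneous
coordinates `z ω`. -/
def IsProduct (M : Type) {K Ω : Type} [Field M] [Field K] [Algebra M K] {m : ℕ}
    (z : Ω → Fin (m + 1) → K) : Prop :=
  (∀ ω j, z ω j ≠ 0) ∧ productField M z Set.univ = ⊤ ∧ ∀ (S : Set Ω) (ω : Ω), ω ∉ S →
    (productField M z S).toSubalgebra.LinearDisjoint (productField M z {ω}).toSubalgebra

/-- The models over the ring of integers of `M` of the varieties with the homogeneous coordinates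
`z ω` are smooth, or they are smooth at the points over the primes which are wildly ramified over
`E` and their product is regular. -/
def IsAdmissible (E M : Type) {K Ω : Type} [Field E] [Field M] [Algebra E M] [Field K]
    [Algebra M K] {m : ℕ} (z : Ω → Fin (m + 1) → K) : Prop :=
  (∀ ω j (𝔮 : Ideal (chartRing (𝓞 M) (z ω) j)) [𝔮.IsPrime], Algebra.IsSmoothAt (𝓞 M) 𝔮) ∨
  (∀ 𝔓 : Ideal (𝓞 M), 𝔓.IsMaximal → ResCharPowDvd E 𝔓 1 →
    ∀ ω j (𝔮 : Ideal (chartRing (𝓞 M) (z ω) j)) [𝔮.IsPrime],
      𝔮.comap (algebraMap (𝓞 M) (chartRing (𝓞 M) (z ω) j)) = 𝔓 → Algebra.IsSmoothAt (𝓞 M) 𝔮) ∧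
  ∀ J : Ω → Fin (m + 1), IsRegularRing (productRing (𝓞 M) z J)

/-- `x` are homogeneous coordinates in the field `F` of the variety with the homogeneous coordinate
ring `B` over `E`: a form vanishes in `B` if and only if it vanishes at `x`. -/
def IsCoordinates {E F B : Type} [Field E] [Field F] [Algebra E F] [CommRing B] [Algebra E B]
    {n : ℕ} (π : MvPolynomial (Fin (n + 1)) E →ₐ[E] B) (x : Fin (n + 1) → F) : Prop :=
  ∀ d, ∀ P : MvPolynomial (Fin (n + 1)) E, P.IsHomogeneous d → (π P = 0 ↔ aeval x P = 0)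

/-- The `M`-linear combinations of the coordinates `x` are those of the products of the
coordinates `z ω`: over `M`, the variety with the coordinates `x` is the product of the varieties
with the coordinates `z ω`, with the Segre embedding. -/
def IsSegre (M : Type) {F K Ω : Type} [Field M] [Field F] [Field K] [Algebra M K] [Algebra F K]
    [Fintype Ω] {n m : ℕ} (x : Fin (n + 1) → F) (z : Ω → Fin (m + 1) → K) : Prop :=
  Submodule.span M (Set.range fun i => algebraMap F K (x i)) =
    Submodule.span M (Set.range fun J : Ω → Fin (m + 1) => ∏ ω, z ω (J ω))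

/-- The dimensions of the local rings of `A` equal the dimensions of their cotangent spaces. -/
def HasRegularLocalRings (A : Type) [CommRing A] : Prop :=
  ∀ p : PrimeSpectrum A, ringKrullDim (Localization.AtPrime p.asIdeal) =
    (((Module.finrank (IsLocalRing.ResidueField (Localization.AtPrime p.asIdeal))
      (IsLocalRing.CotangentSpace (Localization.AtPrime p.asIdeal)) : ℕ) : ℕ∞) : WithBot ℕ∞)

/-- The local rings of the locally Noetherian scheme `Y` are regular. -/
def IsRegularScheme (Y : Scheme.{0}) : Prop :=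
  IsLocallyNoetherian Y ∧
  ∀ U : Y.affineOpens, HasRegularLocalRings (Y.presheaf.obj (Opposite.op U.1))

/-- `Y` is projective over the integers. -/
def IsProjectiveOverInt (Y : Scheme.{0}) : Prop :=
  ∃ (A : Type) (_ : CommRing A) (𝒜 : ℕ → Submodule ℤ A) (_ : GradedAlgebra 𝒜),
    (∀ a ∈ 𝒜 0, ∃ n : ℤ, (n : A) = a) ∧
    (∃ s : Finset A, (∀ a ∈ s, a ∈ 𝒜 1) ∧ Algebra.adjoin ℤ (s : Set A) = ⊤) ∧
    Nonempty (Y ≅ Proj 𝒜)

/-- The generic fibre of `Y` is isomorphic to `V`. -/
def HasGenericFibre (Y V : Scheme.{0}) : Prop :=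
  Nonempty (pullback (specZIsTerminal.from Y)
      (specZIsTerminal.from (Spec (CommRingCat.of ℚ))) ≅ V)

/-- `Y` is an integral regular locally Noetherian scheme, projective and flat over the integers,
with generic fibre `V`. -/
def IsRegularProjectiveFlatModel (V Y : Scheme.{0}) : Prop :=
  IsIntegral Y ∧ IsRegularScheme Y ∧ IsProjectiveOverInt Y ∧ Flat (specZIsTerminal.from Y) ∧
    HasGenericFibre Y V

theorem result :
    ∀ (E M : Type) [Field E] [NumberField E] [Field M] [NumberField M] [Algebra E M]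
      [IsGalois E M],
      -- the wild inertia groups have order at most the residue characteristic
      (∀ 𝔓 : Ideal (𝓞 M), 𝔓.IsMaximal → ¬ ResCharPowDvd E 𝔓 2) →
      -- the étale algebra
      ∀ (Ω : Type) [Fintype Ω] [Nonempty Ω] [MulAction (M ≃ₐ[E] M) Ω]
      -- the function fields
      (F K : Type) [Field F] [Field K] [Algebra E F] [Algebra M K] [Algebra E K]
      [IsScalarTower E M K] [Algebra F K] [IsScalarTower E F K]
      (ρ : (M ≃ₐ[E] M) →* (K ≃ₐ[E] K)), (∀ g c, ρ g (algebraMap M K c) = algebraMap M K (g c)) →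
      (∀ y, (∀ g, ρ g y = y) ↔ ∃ f : F, algebraMap F K f = y) →
      -- the conjugates and their models
      ∀ (m : ℕ) (z : Ω → Fin (m + 1) → K), IsProduct M z → (∀ g ω j, ρ g (z ω j) = z (g • ω) j) →
      IsAdmissible E M z →
      -- the Weil restriction
      ∀ (n : ℕ) (B : Type) [CommRing B] [Algebra E B] (π : MvPolynomial (Fin (n + 1)) E →ₐ[E] B),
      Function.Surjective π →
      ∀ (ℬ : ℕ → Submodule E B) [GradedAlgebra ℬ],
      (∀ d, ℬ d = (homogeneousSubmodule (Fin (n + 1)) E d).map π.toLinearMap) →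
      ∀ (x : Fin (n + 1) → F), IsCoordinates π x → IsSegre M x z →
      -- every scheme isomorphic to `Proj ℬ` has a regular projective flat model over the integers
      ∀ (V : Scheme.{0}), Nonempty (V ≅ Proj ℬ) → ∃ Y, IsRegularProjectiveFlatModel V Y := by
  intro E M _ _ _ _ _ _ hin Ω _ _ _ F K _ _ _ _ _ _ _ _ ρ hρ hfix m z ⟨hz0, hgen, hld⟩ heqv had n B
    _ _ π hπ ℬ _ hℬ x hx hseg V hV
  have hcard : ∀ 𝔓 : Ideal (𝓞 M), Nat.card (Pool.Agent.Y223.G.inert E 𝔓) =
      Nat.card (inertiaGroup E 𝔓) := by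
    intro 𝔓
    have h1 : ((Pool.Agent.Y223.G.inert E 𝔓 : Subgroup (M ≃ₐ[E] M)) : Set (M ≃ₐ[E] M)) =
        inertiaGroup E 𝔓 := by
      ext g
      constructor
      · intro hg o
        exact ⟨_, hg o, rfl⟩
      · intro hg o
        obtain ⟨e, he, h⟩ := hg o
        have h2 : e = Pool.Agent.Y223.G.TT E M g o - o := by
          apply NumberField.RingOfIntegers.coe_injective
          exact h
        rw [← h2]
        exact he
    exact congrArg (fun S : Set (M ≃ₐ[E] M) => Nat.card S) h1
  have hgen' : IntermediateField.adjoin M {y : K | ∃ ω j, y = z ω j / z ω 0} = ⊤ := by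
    rw [← hgen]
    unfold productField
    congr 1
    ext y
    constructor
    · rintro ⟨ω, j, h⟩
      exact ⟨ω, Set.mem_univ _, j, h⟩
    · rintro ⟨ω, -, j, h⟩
      exact ⟨ω, j, h⟩
  have hld' : ∀ (S : Finset Ω) (ω : Ω), ω ∉ S →
      (IntermediateField.adjoin M {y : K | ∃ ω' ∈ S, ∃ j, y = z ω' j / z ω' 0}
        ).toSubalgebra.LinearDisjoint
          (IntermediateField.adjoin M {y : K | ∃ j, y = z ω j / z ω 0}).toSubalgebra := by
    intro S ω hω
    have h1 := hld (S : Set Ω) ω (by exact_mod_cast hω)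
    unfold productField at h1
    have h2 : {y : K | ∃ ω' ∈ ({ω} : Set Ω), ∃ j, y = z ω' j / z ω' 0} =
        {y : K | ∃ j, y = z ω j / z ω 0} := by
      ext y
      constructor
      · rintro ⟨ω', hω', j, h⟩
        rw [Set.mem_singleton_iff] at hω'
        subst hω'
        exact ⟨j, h⟩
      · rintro ⟨j, h⟩
        exact ⟨ω, rfl, j, h⟩
    rw [h2] at h1
    exact h1
  have hrg : ∀ J : Ω → Fin (m + 1), IsRegularRing (Algebra.adjoin (𝓞 M)
      {y : K | ∃ (ω : Ω) (i : Fin (m + 1)), y = z ω i / z ω (J ω)}) := by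
    rcases had with h | h
    · exact Pool.Agent.Y223.G.rg_of_smooth Pool.Agent.Y223.G.all_SMRG Pool.Agent.Y223.G.all_LDG z hz0
        hld' (fun ω j q hq => @h ω j q hq)
    · exact h.2
  have hsm : ∀ 𝔓 : Ideal (𝓞 M), 𝔓.IsMaximal → ∀ p : ℕ, p.Prime → (p : 𝓞 M) ∈ 𝔓 →
      p ∣ Nat.card (Pool.Agent.Y223.G.inert E 𝔓) →
      ∀ ω j (q : Ideal (Pool.Agent.Y223.G.AZ (𝓞 M) (z ω) j)) [q.IsPrime],
      q.comap (algebraMap (𝓞 M) (Pool.Agent.Y223.G.AZ (𝓞 M) (z ω) j)) = 𝔓 →
      Algebra.IsSmoothAt (𝓞 M) q := by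
    intro 𝔓 h𝔓 p hp hp𝔓 hdvd ω j q hqp hq
    rcases had with h | h
    · exact @h ω j q hqp
    · exact @h.1 𝔓 h𝔓 ⟨p, hp, hp𝔓, by rwa [pow_one, ← hcard]⟩ ω j q hqp hq
  obtain ⟨Y, h1, h2, h3, h4, h5, h6⟩ := Pool.Agent.Y223.G.weile_model_Z Pool.Agent.Y223.G.all_TAMC
    Pool.Agent.Y223.G.all_WEILE ρ hρ hfix z hz0 heqv
    hgen' hld' (fun 𝔓 h𝔓 p hp hp𝔓 hd => hin 𝔓 h𝔓 ⟨p, hp, hp𝔓, by rwa [← hcard]⟩) hsm hrg x hseg π hπ
    ℬ hℬ (fun d P hP => hx d P hP) V hV
  exact ⟨Y, h1, ⟨h2, h3⟩, h4, h5, h6⟩

end Pool.Agent.Results.MP_602153_ag.EtaleWeilRestrictions
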