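import Pool.Agent.H176.DT.G3
import Pool.Agent.H176.DT.H8

/-!
MP_602153_ag: projective flat models over the ring of integers `O` of a number field `E` (for
example, `O = ℤ` and `E = ℚ`) which are regular at the centre of a given valuation, in all
dimensions.

Let `X` be a projective variety over `E` with function field `K`, let `p` be a prime number and `V`
a valuation ring of `K` with `p⁻¹ ∉ V` and `V[1 / p] = K` (for example, of rank one): these
valuation rings are the points of the Zariski-Riemann space of the analytification of `X` at the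
places over `p`. Suppose that `K` is reached from `E` (or from a field `L` such that `V ∩ L` is log
uniformizable, for example, `L` of transcendence degree at most `2` over `E`, by Cossart and
Piltant) by a tower of transcendental steps without limit key polynomials and finite extensions
without defect (the degree of the extension of the henselizations is `e f`). Then every projective
flat model of `X` over `O` has a blowing-up in a closed subscheme of the fibre over `p`, hence again
a projective flat model of `X`, which is regular at the centre of `V`, and such that the reduced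
fibre over `p` is a divisor with normal crossings there.
-/

set_option autoImplicit false

universe u

namespace Pool.Agent.Results.MP_602153_ag.ModelsAlongTowers

open Pool.Agent.W418.LU2

/-- The local ring of `Spec B` at the centre of the valuation ring `V`: the fractions of elements
of `B` whose denominators are units of `V`. -/
def centreRing {F : Type u} [Field F] (V : ValuationSubring F) (B : Subring F) : Subring F where
  carrier := {x | ∃ a ∈ B, ∃ b ∈ B, b ≠ 0 ∧ b⁻¹ ∈ V ∧ x = a * b⁻¹}
  mul_mem' := (lo V.toSubring B).mul_mem'
  one_mem' := (lo V.toSubring B).one_mem'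
  add_mem' := (lo V.toSubring B).add_mem'
  zero_mem' := (lo V.toSubring B).zero_mem'
  neg_mem' := (lo V.toSubring B).neg_mem'

/-- The chart `A[I / f]` of the blowing-up of `Spec A` in the ideal `I`. -/
def blowUpChart {F : Type u} [Field F] (A : Subring F) (I : Ideal A) (f : A) : Subring F :=
  Subring.closure ((A : Set F) ∪ {z | ∃ a ∈ I, z = (a : F) / (f : F)})

/-- `P` is a regular local ring and the zero set of `J` is a divisor with strict normal
crossings: the radical of `J` is generated by the product of some of the elements of a regular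
system of parameters. -/
def RegularPair (P : Type u) [CommRing P] (J : Ideal P) : Prop :=
  ∃ (_ : IsRegularLocalRing P) (n : ℕ) (x : Fin n → P) (s : Finset (Fin n)),
    Ideal.span (Set.range x) = IsLocalRing.maximalIdeal P ∧ ringKrullDim P = n ∧
      J.radical = Ideal.span {∏ i ∈ s, x i}

/-- The blowing-up of `X = Spec A` in `V(I)` is a log desingularization of `(X, V(D))` along the
valuation ring `V`. Here `f ∈ I` generates `I V`, the centre of the lift of the valuation lies in
the chart `Spec A[I / f]`, and the ideal `D I` defines the preimage of `V(D) ∪ V(I)`. -/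
def IsLogDesingularization {F : Type u} [Field F] (V : ValuationSubring F) (A : Subring F)
    (D I : Ideal A) : Prop :=
  ∃ f ∈ I, f ≠ 0 ∧ (∀ a ∈ I, (a : F) / (f : F) ∈ V) ∧
    RegularPair (centreRing V (blowUpChart A I f))
      (Ideal.span {z | ∃ a ∈ D * I, (z : F) = (a : F)})

/-- The valuation ring `V` is log uniformizable on `Spec A`. (The blowings-up in the ideals
`I₀ * I₁` are cofinal: the blowing-up in `I₀ * I₁` factors through the blowing-up in `I₀`.) -/
def IsLogUniformizable {F : Type u} [Field F] (V : ValuationSubring F) (A : Subring F) : Prop :=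
  ∀ D I₀ : Ideal A, D ≠ ⊥ → I₀ ≠ ⊥ →
    ∃ I₁ : Ideal A, I₁ ≠ ⊥ ∧ IsLogDesingularization V A D (I₀ * I₁)

/-- The subring `P` of the field `K` is a regular local ring with a regular system of parameters `x`
such that every element of `Z` is the product of a unit of `P` and a monomial in the `x i`, with
exponents `≥ 0` for the elements of `Z` which lie in the valuation ring `V`. -/
def IsAdapted {K : Type u} [Field K] (V : ValuationSubring K) (P : Subring K) (Z : Set K) : Prop :=
  ∃ (_ : IsRegularLocalRing P) (n : ℕ) (x : Fin n → P),
    Ideal.span (Set.range x) = IsLocalRing.maximalIdeal P ∧ ringKrullDim P = n ∧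
      ∀ z ∈ Z, ∃ (u : Pˣ) (γ : Fin n → ℤ),
        z = ((u : P) : K) * ∏ i, (x i : K) ^ γ i ∧ (z ∈ V → ∀ i, 0 ≤ γ i)

/-- The coordinate ring `O[v / w : v ∈ W]` of the chart `w ≠ 0` of the projective `O`-scheme
`Proj O[W]` with the function field `K` and the homogeneous coordinates `W ⊆ K`. -/
def chart {K : Type u} [Field K] (O : Subring K) (W : Set K) (w : K) : Subring K :=
  Subring.closure ((O : Set K) ∪ {z | ∃ v ∈ W, z = v / w})

/-- `Y` is a finite set of forms of some degree `d` over `O` in the homogeneous coordinates `W`,
and `p ^ n` times any form of degree `d` is a linear combination of the forms in `Y`, for some `n`.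
So the closed subscheme of `Proj O[W]` defined by the forms in `Y` is contained in the
fibre over `p`. -/
def IsVerticalCentre {K : Type u} [Field K] (O : Subring K) (p : K) (W Y : Set K) : Prop :=
  Y.Finite ∧ ∃ d n : ℕ, Y ⊆ ((Submodule.span O W) ^ d : Submodule O K) ∧
    ∀ z ∈ (Submodule.span O W) ^ d, p ^ n * z ∈ Submodule.span O Y

/-- The homogeneous coordinates of the blowing-up of `Proj O[W]` in the closed subscheme which is
defined by the forms in `Y`. -/
def blowUpCoordinates {K : Type u} [Field K] (W Y : Set K) : Set K :=
  {z | ∃ y ∈ Y, ∃ v ∈ W, z = y * v}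

/-- The projective scheme `Proj O[W]` is regular at the centre of `V`, which lies in the chart
`w ≠ 0`, and the elements of `Z` are units times monomials in a regular system of parameters
there. -/
def IsRegularAt {K : Type u} [Field K] (V : ValuationSubring K) (O : Subring K) (W Z : Set K) :
    Prop :=
  ∃ w ∈ W, w ≠ 0 ∧ (∀ v ∈ W, v / w ∈ V) ∧ IsAdapted V (centreRing V (chart O W w)) Z

section key

open Polynomial

variable {K : Type u} [Field K] (V : ValuationSubring K) {L : Subfield K} (θ : K)

/-- The monic polynomial `ϕ` over `L` of positive degree is a key polynomial for the valuation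
`f ↦ |f(θ)|` of polynomials: if `f` and `g` are nonzero polynomials of smaller degree and
`f g = q ϕ + r` with `deg r < deg ϕ`, then `|q(θ) ϕ(θ)| < |f(θ) g(θ)|`. (So `|r(θ)| = |f(θ) g(θ)|`,
and the values of the polynomials of smaller degree define a valuation of `L[X] / (ϕ)`.) -/
def IsKey (ϕ : L[X]) : Prop :=
  ϕ.Monic ∧ 0 < ϕ.natDegree ∧ ∀ f g : L[X], f.degree < ϕ.degree → g.degree < ϕ.degree →
    f ≠ 0 → g ≠ 0 → V.valuation (aeval θ (f * g /ₘ ϕ * ϕ)) < V.valuation (aeval θ (f * g))

/-- The polynomials of degree less than the degree of `ϕ` have an orthogonal basis over `L` with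
respect to the valuation `f ↦ |f(θ)|`. (For a key polynomial `ϕ` this means that the valued field
`L[X] / (ϕ)` is an extension of `L` of degree `e f`. It holds if there are no limit key
polynomials of degree at most `deg ϕ`.) -/
def IsDefectless (ϕ : L[X]) : Prop :=
  ∃ (n : ℕ) (β : Fin n → L[X]), (∀ i, (β i).degree < ϕ.degree ∧ β i ≠ 0) ∧
    (∀ f : L[X], f.degree < ϕ.degree → ∃ c : Fin n → L, f = ∑ i, C (c i) * β i) ∧
    ∀ (c : Fin n → L) (i : Fin n), V.valuation (aeval θ (C (c i) * β i)) ≤
      V.valuation (aeval θ (∑ j, C (c j) * β j))

/-- The value of `f(θ)` is determined by `ϕ`: in the `ϕ`-adic expansion `f = ∑ f_k ϕ ^ k` with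
`deg f_k < deg ϕ` the value of no term at `θ` is greater than the value of `f(θ)`. -/
def IsDetermined (ϕ f : L[X]) : Prop :=
  ∃ (N : ℕ) (d : ℕ → L[X]), (∀ k, (d k).degree < ϕ.degree) ∧
    f = ∑ k ∈ Finset.range N, d k * ϕ ^ k ∧
    ∀ k < N, V.valuation (aeval θ (d k * ϕ ^ k)) ≤ V.valuation (aeval θ f)

end key

open Polynomial in
/-- The extension `L ⊆ L'` of subfields of `K` is finite and has no defect with respect to the
valuation ring `V` of `K`. That is, for some valuation ring `W` over `V` of some extension field
`M` of `K`, some root `ζ ∈ M` of a monic polynomial `f` over `V ∩ L` with `|f'(ζ)| = 1`, and some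
nonzero elements `β i` of `L'`, the field `L'(ζ)` is the sum of the lines `L(ζ) β i`, and the `β
i` are orthogonal over `L(ζ) = L[ζ]`. (The extension `L(ζ) / L` is unramified. If `L^h ⊆ L'^h ⊆
K^h` are the henselizations for `V` and `[L'^h : L^h] = e f`, then this holds with `M = K^h`,
`L(ζ)` a large finite subextension of `L^h / L`, and with products of `e` elements of `L'` whose
values represent the cosets of the value group and `f` elements of `L'` whose residues form a
basis for the `β i`. For `M = K` and `L(ζ) = L` it is the condition `[L' : L] = e f`.) -/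
def IsFiniteWithoutDefect {K : Type u} [Field K] (V : ValuationSubring K) (L L' : Subfield K) :
    Prop :=
  L ≤ L' ∧ ∃ (M : Type u) (_ : Field M) (_ : Algebra K M) (W : ValuationSubring M) (ζ : M)
    (f : L[X]) (n : ℕ) (β : Fin n → K), W.comap (algebraMap K M) = V ∧ f.Monic ∧
    (∀ i, (f.coeff i : K) ∈ V) ∧ eval₂ ((algebraMap K M).comp L.subtype) ζ f = 0 ∧
    W.valuation (eval₂ ((algebraMap K M).comp L.subtype) ζ (derivative f)) = 1 ∧
    (∀ i, β i ∈ L' ∧ β i ≠ 0) ∧
    (∀ z ∈ L', ∃ c : Fin n → L[X], algebraMap K M z =
      ∑ i, eval₂ ((algebraMap K M).comp L.subtype) ζ (c i) * algebraMap K M (β i)) ∧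
    ∀ (c : Fin n → L[X]) (i : Fin n),
      W.valuation (eval₂ ((algebraMap K M).comp L.subtype) ζ (c i) * algebraMap K M (β i)) ≤
        W.valuation (∑ j, eval₂ ((algebraMap K M).comp L.subtype) ζ (c j) * algebraMap K M (β j))

open Polynomial in
/-- The subfields `L` of `K` which are reached from the field `E` by a tower of steps without
defect with respect to the valuation ring `V` of `K`. -/
inductive Tower (E : Type u) {K : Type u} [Field E] [Field K] [Algebra E K]
    (V : ValuationSubring K) : Subfield K → Prop
  /-- The tower starts with (the image of) `E`. -/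
  | base : Tower E V (algebraMap E K).fieldRange
  /-- The step from `L` to `L(t)`, where `t` is transcendental and the value of every polynomial in
  `t` is determined by a defectless key polynomial. (This holds if the valuation of `L(t)` has no
  limit key polynomials; for example, if `L` is algebraically closed, if `t` is a limit of a
  pseudo-convergent sequence of transcendental type, or if the value or the residue of a
  defectless key polynomial at `t` is transcendental over `L`.) -/
  | transcendental (L : Subfield K) (t : K) : Tower E V L → Transcendental L t →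
    (∀ f : L[X], ∃ ϕ : L[X], IsKey V t ϕ ∧ IsDefectless V t ϕ ∧ IsDetermined V t ϕ f) →
    Tower E V (L ⊔ Subfield.closure {t})
  /-- The step from `L` to a finite extension `L'` without defect. -/
  | finite (L L' : Subfield K) : Tower E V L → IsFiniteWithoutDefect V L L' → Tower E V L'

/-- Let `O` be a subring of a field `L` (for example, the ring of integers of a number field
`E ⊆ L`), `K` an extension field of `L` and `V` a valuation ring of `K` which contains `O`. Let
`p ≠ 0` be an element of `O` (for example, a prime number) such that `V[1 / p] = K`. Let `R ⊆ V` be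
a noetherian `O`-algebra of finite type with fraction field `L`, and suppose that `R` is a Dedekind
ring, or that `V ∩ L` is log uniformizable on `Spec R`. Suppose that `K` is reached from `L` by a
tower as above. Let `𝒳` be an integral projective `O`-scheme with function field `K` and with the
homogeneous coordinates `W`. (If `O` is a Dedekind ring, then `𝒳` is flat over `O`, hence a
projective flat model of its generic fibre.) Let `Z` be a finite set of nonzero elements of `K`.

Then there is a closed subscheme of the fibre of `𝒳` over `p` such that the blowing-up `𝒳'` of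
`𝒳` in this subscheme (which has the same generic fibre as `𝒳`, so it is again a projective flat
model) is regular at the centre of `V`, and has there a regular system of parameters such that `p`
and the elements of `Z` are units times monomials; so the reduced fibre of `𝒳'` over `p` is a
divisor with normal crossings at the centre of `V`. -/
theorem result {L K : Type u} [Field L] [Field K] [Algebra L K] (V : ValuationSubring K)
    (O R : Subring L) [IsNoetherianRing R] (U : Set L) (hU : U.Finite)
    (hOR : R = Subring.closure ((O : Set L) ∪ U))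
    (hfr : ∀ z : L, ∃ a ∈ R, ∃ b ∈ R, b ≠ 0 ∧ z = a * b⁻¹)
    (hRV : ∀ a ∈ R, algebraMap L K a ∈ V)
    (hR : IsDedekindDomain R ∨ IsLogUniformizable (V.comap (algebraMap L K)) R)
    (hK : Tower L V ⊤)
    (p : L) (hp : p ∈ O) (hp0 : p ≠ 0) (hpV : ∀ z : K, ∃ n : ℕ, algebraMap L K p ^ n * z ∈ V)
    (W : Set K) (hW : W.Finite) (w : K) (hw : w ∈ W) (hw0 : w ≠ 0) (hwV : ∀ v ∈ W, v / w ∈ V)
    (hWK : ∀ z : K, ∃ a ∈ chart (O.map (algebraMap L K)) W w,
      ∃ b ∈ chart (O.map (algebraMap L K)) W w, b ≠ 0 ∧ z = a * b⁻¹)
    (Z : Set K) (hZ : Z.Finite) (hZ0 : ∀ z ∈ Z, z ≠ 0) :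
    ∃ Y : Set K, IsVerticalCentre (O.map (algebraMap L K)) (algebraMap L K p) W Y ∧
      IsRegularAt V (O.map (algebraMap L K)) (blowUpCoordinates W Y)
        (insert (algebraMap L K p) Z) := by
  have hRW : R ≤ (V.comap (algebraMap L K)).toSubring := fun a ha => hRV a ha
  have hLU : LogUnif (V.comap (algebraMap L K)) R := by
    rcases hR with hR | hR
    · exact logUnif_of_dedekind _ R hRW hfr
    · exact hR
  have kp : ∀ {M : Subfield K} {θ : K} {ϕ : Polynomial M}, IsKey V θ ϕ → IsDefectless V θ ϕ →
      ∃ (n : ℕ) (β : Fin n → Polynomial M), Pool.Agent.H176.DT.KP V θ ϕ β := by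
    rintro M θ ϕ ⟨h1, h2, h3⟩ ⟨n, β, h4, h5, h6⟩
    exact ⟨n, β, h1, h2, fun i => (h4 i).1, fun i => (h4 i).2, h5, h6, h3⟩
  have key : ∀ M : Subfield K, Tower L V M →
      Pool.Agent.H176.DT.Inv V (R.map (algebraMap L K)) M.subtype := by
    intro M hM
    induction hM with
    | base => exact Pool.Agent.H176.DT.sub_base V R ⟨hRW, hfr⟩ hLU
    | transcendental L t _ ht hdom ih =>
      refine Pool.Agent.H176.DT.sub_trans V _ t ht (fun f => ?_) ih
      obtain ⟨ϕ, h1, h2, N, d, h3, h4, h5⟩ := hdom f
      obtain ⟨n, β, h6⟩ := kp h1 h2
      exact ⟨ϕ, n, β, h6, N, d, ⟨h3, h4⟩, h5⟩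
    | finite L L' _ hnd ih => exact Pool.Agent.H176.DT.sub_nd V _ hnd.1 hnd.2 ih
  have hO : ∀ a ∈ O.map (algebraMap L K), a ∈ V := by
    rintro _ ⟨a, ha, rfl⟩
    refine hRV a ?_
    rw [hOR]
    exact Subring.subset_closure (Or.inl ha)
  set O' : Subring K := O.map (algebraMap L K) with hO'
  have hU' : (algebraMap L K '' U).Finite := hU.image _
  have hUV : ∀ u ∈ algebraMap L K '' U, u ∈ V := by
    rintro _ ⟨a, ha, rfl⟩
    refine hRV a ?_
    rw [hOR]
    exact Subring.subset_closure (Or.inr ha)
  have hchV : chart O' W w ≤ V.toSubring := by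
    unfold chart
    rw [Subring.closure_le]
    rintro z (hz | ⟨v, hv, rfl⟩)
    · exact hO z hz
    · exact hwV v hv
  have hMod : Pool.Agent.H176.DT.Mod V (chart O' W w) := ⟨hchV, hWK⟩
  have hmap : R.map (algebraMap L K) = Subring.closure ((O' : Set K) ∪ algebraMap L K '' U) := by
    rw [hOR, RingHom.map_closure, Set.image_union]
    rfl
  have hcl : Subring.closure ((chart O' W w : Set K) ∪ algebraMap L K '' U) =
      Subring.closure ((R.map (algebraMap L K) : Set K) ∪ (fun v => v / w) '' W) := by
    rw [hmap]
    apply le_antisymm
    · rw [Subring.closure_le]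
      rintro z (hz | hz)
      · refine (?_ : chart O' W w ≤ _) hz
        unfold chart
        rw [Subring.closure_le]
        rintro z (hz | ⟨v, hv, rfl⟩)
        · exact Subring.subset_closure (Or.inl (Subring.subset_closure (Or.inl hz)))
        · exact Subring.subset_closure (Or.inr ⟨v, hv, rfl⟩)
      · exact Subring.subset_closure (Or.inl (Subring.subset_closure (Or.inr hz)))
    · rw [Subring.closure_le]
      rintro z (hz | ⟨v, hv, rfl⟩)
      · refine (?_ : Subring.closure ((O' : Set K) ∪ algebraMap L K '' U) ≤ _) hz
        rw [Subring.closure_le]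
        rintro z (hz | hz)
        · exact Subring.subset_closure (Or.inl (Subring.subset_closure (Or.inl hz)))
        · exact Subring.subset_closure (Or.inr hz)
      · exact Subring.subset_closure (Or.inl (Subring.subset_closure (Or.inr ⟨v, hv, rfl⟩)))
  have hle : chart O' W w ≤ Subring.closure ((chart O' W w : Set K) ∪ algebraMap L K '' U) :=
    fun z hz => Subring.subset_closure (Or.inl hz)
  have hMod2 : Pool.Agent.H176.DT.Mod V
      (Subring.closure ((chart O' W w : Set K) ∪ algebraMap L K '' U)) := by
    refine ⟨?_, fun z => ?_⟩
    · rw [Subring.closure_le]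
      rintro z (hz | hz)
      · exact hchV hz
      · exact hUV z hz
    · obtain ⟨a, ha, b, hb, h⟩ := hWK z
      exact ⟨a, hle ha, b, hle hb, h⟩
  have h1 := Pool.Agent.H176.DT.inv_SU V (key ⊤ hK) _ ((fun v => v / w) '' W) (hW.image _) hcl
    hMod2
  have h2 : Pool.Agent.H176.DT.SU V (chart O' W w) :=
    (Pool.Agent.H176.DT.p_move V (chart O' W w) hMod _ hU' hUV).2 h1
  have hp0' : algebraMap L K p ≠ 0 := (_root_.map_ne_zero _).2 hp0
  obtain ⟨Y, d, n, h3, h4, h5, w', h6, h7, h8, P, h9, hreg, m, x, h10⟩ :=
    Pool.Agent.H176.DT.vert_model V O' hO hW hw hw0 hwV ⟨p, hp, rfl⟩ hp0' hpV h2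
      (insert (algebraMap L K p) Z) (hZ.insert _) (by
        rintro z (rfl | hz)
        · exact hp0'
        · exact hZ0 z hz)
  refine ⟨Y, ⟨h3, d, n, h4, h5⟩, w', h6, h7, h8, ?_⟩
  have h11 : centreRing V (chart O' (blowUpCoordinates W Y) w') = P := h9
  rw [h11]
  exact ⟨hreg, m, x, h10⟩

end Pool.Agent.Results.MP_602153_ag.ModelsAlongTowers
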