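import Pool.Agent.Y223.INV.TwFin

/-!
MP_602153_ag: regular projective flat models, in every dimension, of the forms `V` over a
number field `E` of varieties which have a regular projective model over a quadratic extension
`E(δ)`, to which the Galois action extends, with wild fixed points in the residue
characteristic `2`. This applies to quadratic twists.

The variety `V` over `E` is given by its homogeneous coordinate ring and by homogeneous coordinates
`x` in a field `F` (its function field). The field `K` is the quadratic extension `F(δ)`, `δ ^ 2` in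
`E`, the function field of the base change of `V` to `E(δ)`. The regular projective model `X` over
the ring of integers `𝓞 E` of this base change is given by homogeneous coordinates `H j` in `K`: its
charts are the spectra of the rings `A j = (𝓞 E)[H 0 / H j, ..., H N / H j] ⊆ K`, and the linear
forms on its generic fibre are the forms of degree `m` in the coordinates `x` of `V`, with
coefficients in `E(δ)`. The involution `σ` of `K` over `F` maps linear forms to linear forms (the
Galois action extends to `X`). A `σ`-stable module `I` of linear forms cuts out a closed subscheme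
`Z` with empty generic fibre, the centre (`Z` is empty if `I` is the module of all linear forms).
The local rings of `X` are considered as subrings of `K`.
-/

set_option autoImplicit false

open AlgebraicGeometry CategoryTheory CategoryTheory.Limits MvPolynomial

open scoped NumberField Pointwise

namespace Pool.Agent.Results.MP_602153_ag.QuadraticTwists

section

variable {O K : Type} [CommRing O] [Field K] [Algebra O K]

/-- The ring `O[H 0 / H j, ..., H N / H j]` of the chart `H j ≠ 0`. -/
def chartRing (O : Type) {K : Type} [CommRing O] [Field K] [Algebra O K] {N : ℕ}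
    (H : Fin (N + 1) → K) (j : Fin (N + 1)) : Subring K :=
  (Algebra.adjoin O (Set.range fun l => H l / H j)).toSubring

/-- The local ring at the prime `𝔮` of the subring `A` of the field `K`, as a subring of `K`. -/
noncomputable def localRing (A : Subring K) (𝔮 : Ideal A) [𝔮.IsPrime] : Subring K :=
  (LocalSubring.ofPrime A 𝔮).toSubring

/-- The ideal generated by the linear forms in `I` (divided by the linear form `h`) in `R`. -/
def centreIdeal (I : Submodule O K) (h : K) (R : Subring K) : Ideal R :=
  Ideal.span {y : R | ∃ n ∈ I, (y : K) = n / h}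

variable (σ : K ≃ₐ[O] K)

/-- The point with the local ring `R` is a point of the fixed scheme of `σ`: the ring `R` is stable
under `σ`, which acts trivially on its residue field. -/
def IsFixed (R : Subring K) : Prop :=
  ∀ x : R, ∃ y : R, (y : K) = σ x ∧ ¬ IsUnit (y - x)

/-- `σ = 1 + t δ` on `R`, where the ideal generated by the image of `δ` is the unit ideal, or has a
regular quotient: the fixed scheme is the sum of the divisor of `t` and a regular scheme. -/
def RegularWild (R : Subring K) : Prop :=
  ∃ (t : R) (δ : R → R), t ≠ 0 ∧ (∀ x : R, σ x = x + t * δ x) ∧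
    (Ideal.span (Set.range δ) = ⊤ ∨ IsRegularLocalRing (R ⧸ Ideal.span (Set.range δ)))

/-- `σ = 1 + t δ` on `R`, and `δ ∘ δ = ε δ`, where `ε` and the image of `δ` are in the ideal `I` of
the centre, and `δ` maps `I` to `I ^ 2`, and the leading form of `δ` along the centre has no zeros:
the products of `n + 2` elements of `I` are combinations of the elements `ε a` and `δ(x) a`,
`a ∈ I ^ (n + 1)`, and `δ(y) b`, `y ∈ I`, `b ∈ I ^ n`. -/
def NondegenerateWild (R : Subring K) (I : Ideal R) : Prop :=
  ∃ (t ε : R) (δ : R → R), t ≠ 0 ∧ (∀ x : R, σ x = x + t * δ x) ∧ (∀ x, δ (δ x) = ε * δ x) ∧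
    ε ∈ I ∧ (∀ x, δ x ∈ I) ∧ (∀ x ∈ I, δ x ∈ I ^ 2) ∧
    ∃ n : ℕ, I ^ (n + 2) ≤ (Ideal.span {ε} ⊔ Ideal.span (Set.range δ)) * I ^ (n + 1) ⊔
      Ideal.span (δ '' I) * I ^ n

/-- The centre is empty or regular at the point with the local ring `R`, and the fixed points of
residue characteristic `2` outside the centre, and on the centre, satisfy the respective
condition. -/
def PointCondition (R : Subring K) (I : Ideal R) : Prop :=
  (I = ⊤ ∨ IsRegularLocalRing (R ⧸ I)) ∧
    (¬ IsUnit (2 : R) → IsFixed σ R →
      (I = ⊤ → RegularWild σ R) ∧ (I ≠ ⊤ → NondegenerateWild σ R I))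

end

/-- `x` are homogeneous coordinates in the field `F` of the variety with the homogeneous coordinate
ring `B` over `E`: a form vanishes in `B` if and only if it vanishes at `x`. -/
def IsCoordinates {E F B : Type} [Field E] [Field F] [Algebra E F] [CommRing B] [Algebra E B]
    {n : ℕ} (π : MvPolynomial (Fin (n + 1)) E →ₐ[E] B) (x : Fin (n + 1) → F) : Prop :=
  ∀ d, ∀ P : MvPolynomial (Fin (n + 1)) E, P.IsHomogeneous d → (π P = 0 ↔ aeval x P = 0)

/-- `K` is the quadratic extension `F(δ)` of `F`, where `δ ^ 2` is in `E`. -/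
def IsQuadratic (E F : Type) {K : Type} [Field E] [Field F] [Algebra E F] [Field K] [Algebra F K]
    (δ : K) : Prop :=
  (∃ d : E, δ ^ 2 = algebraMap F K (algebraMap E F d)) ∧ (∀ f : F, algebraMap F K f ≠ δ) ∧
    ∀ y : K, ∃ a b : F, y = algebraMap F K a + δ * algebraMap F K b

/-- The `E`-linear combinations of the `H j` are the forms of degree `m` in the coordinates `x`
with coefficients in `E(δ)`. -/
def IsVeronese {E F K : Type} [Field E] [Field F] [Algebra E F] [Field K] [Algebra F K]
    [Algebra E K] {n N : ℕ} (m : ℕ) (x : Fin (n + 1) → F) (δ : K) (H : Fin (N + 1) → K) : Prop :=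
  ∀ y : K, y ∈ Submodule.span E (Set.range H) ↔
    ∃ P Q : MvPolynomial (Fin (n + 1)) E, P.IsHomogeneous m ∧ Q.IsHomogeneous m ∧
      y = algebraMap F K (aeval x P) + δ * algebraMap F K (aeval x Q)

/-- The dimensions of the local rings of `A` equal the dimensions of their cotangent spaces. -/
def HasRegularLocalRings (A : Type) [CommRing A] : Prop :=
  ∀ p : PrimeSpectrum A, ringKrullDim (Localization.AtPrime p.asIdeal) =
    (((Module.finrank (IsLocalRing.ResidueField (Localization.AtPrime p.asIdeal))
      (IsLocalRing.CotangentSpace (Localization.AtPrime p.asIdeal)) : ℕ) : ℕ∞) : WithBot ℕ∞)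

/-- The local rings of the locally Noetherian scheme `Y` are regular. -/
def IsRegularScheme (Y : Scheme.{0}) : Prop :=
  IsLocallyNoetherian Y ∧
  ∀ U : Y.affineOpens, HasRegularLocalRings (Y.presheaf.obj (Opposite.op U.1))

/-- `Y` is projective over the integers. -/
def IsProjectiveOverInt (Y : Scheme.{0}) : Prop :=
  ∃ (A : Type) (_ : CommRing A) (𝒜 : ℕ → Submodule ℤ A) (_ : GradedAlgebra 𝒜),
    (∀ a ∈ 𝒜 0, ∃ n : ℤ, (n : A) = a) ∧
    (∃ s : Finset A, (∀ a ∈ s, a ∈ 𝒜 1) ∧ Algebra.adjoin ℤ (s : Set A) = ⊤) ∧
    Nonempty (Y ≅ Proj 𝒜)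

/-- The generic fibre of `Y` is isomorphic to `V`. -/
def HasGenericFibre (Y V : Scheme.{0}) : Prop :=
  Nonempty (pullback (specZIsTerminal.from Y)
      (specZIsTerminal.from (Spec (CommRingCat.of ℚ))) ≅ V)

/-- `Y` is an integral regular locally Noetherian scheme, projective and flat over the integers,
with generic fibre `V`. -/
def IsRegularProjectiveFlatModel (V Y : Scheme.{0}) : Prop :=
  IsIntegral Y ∧ IsRegularScheme Y ∧ IsProjectiveOverInt Y ∧ Flat (specZIsTerminal.from Y) ∧
    HasGenericFibre Y V

theorem result :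
    ∀ (E : Type) [Field E] [NumberField E]
      -- the variety `V`
      (n : ℕ) (B : Type) [CommRing B] [Algebra E B] (π : MvPolynomial (Fin (n + 1)) E →ₐ[E] B),
      Function.Surjective π →
      ∀ (ℬ : ℕ → Submodule E B) [GradedAlgebra ℬ],
      (∀ d, ℬ d = (homogeneousSubmodule (Fin (n + 1)) E d).map π.toLinearMap) →
      ∀ (F : Type) [Field F] [Algebra E F] (x : Fin (n + 1) → F), IsCoordinates π x →
      -- the quadratic extension
      ∀ (K : Type) [Field K] [Algebra F K] [Algebra E K] [IsScalarTower E F K]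
      [Algebra (𝓞 E) K] [IsScalarTower (𝓞 E) E K] (δ : K), IsQuadratic E F δ →
      -- the regular projective model of the base change of `V`
      ∀ (N m : ℕ) (H : Fin (N + 1) → K), 1 ≤ m → (∀ j, H j ≠ 0) → IsVeronese (E := E) m x δ H →
      (∀ j, IsRegularRing (chartRing (𝓞 E) H j)) →
      -- the Galois action
      ∀ (σ : K ≃ₐ[𝓞 E] K), (∀ f : F, σ (algebraMap F K f) = algebraMap F K f) → σ δ = - δ →
      (∀ j, σ (H j) ∈ Submodule.span (𝓞 E) (Set.range H)) →
      -- the centre
      ∀ (I : Submodule (𝓞 E) K), I ≤ Submodule.span (𝓞 E) (Set.range H) →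
      (∃ s : 𝓞 E, s ≠ 0 ∧ ∀ y ∈ Submodule.span (𝓞 E) (Set.range H), s • y ∈ I) →
      (∀ x ∈ I, σ x ∈ I) →
      (∀ j (𝔮 : Ideal (chartRing (𝓞 E) H j)) [𝔮.IsPrime],
        PointCondition σ (localRing (chartRing (𝓞 E) H j) 𝔮)
          (centreIdeal I (H j) (localRing (chartRing (𝓞 E) H j) 𝔮))) →
      -- every scheme isomorphic to `Proj ℬ` has a regular projective flat model over the integers
      ∀ (V : Scheme.{0}), Nonempty (V ≅ Proj ℬ) → ∃ Y, IsRegularProjectiveFlatModel V Y := by
  intro E _ _ n B _ _ π hπ ℬ _ hℬ F _ _ x hx K _ _ _ _ _ _ δ ⟨⟨d, hd⟩, hδ, hK⟩ N m H hm hH hHm hreg σ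
    hσF hσδ hσH I hI ⟨s, hs, hsI⟩ hσI hpt V hV
  have hHm' : ∀ y : K, y ∈ Submodule.span E (Set.range H) ↔
      ∃ P ∈ homogeneousSubmodule (Fin (n + 1)) E m, ∃ Q ∈ homogeneousSubmodule (Fin (n + 1)) E m,
        y = algebraMap F K (aeval x P) + δ * algebraMap F K (aeval x Q) := by
    intro y
    rw [hHm y]
    constructor
    · rintro ⟨P, Q, hP, hQ, h⟩
      exact ⟨P, hP, Q, hQ, h⟩
    · rintro ⟨P, hP, Q, hQ, h⟩
      exact ⟨P, Q, hP, hQ, h⟩
  obtain ⟨Y, h1, h2, h3, h4, h5, h6⟩ := Pool.Agent.Y223.INV.tw_model_Z x π hπ ℬ hℬ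
    (fun d P hP => hx d P hP) hd hδ hK hm H hH hreg hHm' σ hσF hσδ hσH I hI hs hsI hσI hpt V hV
  exact ⟨Y, h1, ⟨h2, h3⟩, h4, h5, h6⟩

end Pool.Agent.Results.MP_602153_ag.QuadraticTwists
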